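import Pool.Agent.N293.KRK.Mono

/-!
# Bit sets indexed by (square of the White king, file of the rook)
-/

set_option autoImplicit false

namespace Pool.Agent.N293.KRK

/-- index of (file and rank of the White king, file of the rook) -/
def code (kx ky rx : ℕ) : ℕ := 32 * (kx + 12 * ky) + rx

/-- blocks of 32 bits -/
def mkN (f : ℕ → ℕ) : ℕ → ℕ
  | 0 => 0
  | n + 1 => Nat.lor (mkN f n) (Nat.shiftLeft (f n) (32 * n))

theorem tb_lor (x y i : ℕ) : (Nat.lor x y).testBit i = (x.testBit i || y.testBit i) :=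
  Nat.testBit_or x y i

theorem tb_land (x y i : ℕ) : (Nat.land x y).testBit i = (x.testBit i && y.testBit i) :=
  Nat.testBit_and x y i

theorem tb_xor (x y i : ℕ) : (Nat.xor x y).testBit i = (x.testBit i ^^ y.testBit i) :=
  Nat.testBit_xor x y i

theorem tb_shl (x s i : ℕ) :
    (Nat.shiftLeft x s).testBit i = (decide (s ≤ i) && x.testBit (i - s)) := by
  have := Nat.testBit_shiftLeft (i := s) (j := i) x
  simpa using this

theorem tb_shr (x s i : ℕ) : (Nat.shiftRight x s).testBit i = x.testBit (s + i) :=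
  Nat.testBit_shiftRight x

theorem testBit_mkN (f : ℕ → ℕ) (hf : ∀ i, f i < 2 ^ 32) (N i r : ℕ) (hr : r < 32) :
    (mkN f N).testBit (32 * i + r) = (decide (i < N) && (f i).testBit r) := by
  induction N with
  | zero => simp [mkN]
  | succ n ih =>
    rw [mkN, tb_lor, ih, tb_shl]
    rcases lt_trichotomy i n with h | h | h
    · have h1 : ¬ (32 * n ≤ 32 * i + r) := by omega
      have h2 : i < n + 1 := by omega
      simp [h1, h2, h]
    · subst h
      simp
    · have h1 : 32 * n ≤ 32 * i + r := by omega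
      have h2 : ¬ i < n := by omega
      have h3 : ¬ i < n + 1 := by omega
      have h4 : (f n).testBit (32 * i + r - 32 * n) = false := by
        apply Nat.testBit_lt_two_pow
        exact (hf n).trans_le (Nat.pow_le_pow_right (by norm_num) (by omega))
      simp [h1, h2, h3, h4]

/-- `x` without `y` -/
def diff (x y : ℕ) : ℕ := Nat.xor x (Nat.land x y)

theorem tb_diff (x y i : ℕ) : (diff x y).testBit i = (x.testBit i && !y.testBit i) := by
  rw [diff, tb_xor, tb_land]
  cases x.testBit i <;> cases y.testBit i <;> rfl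

/-- for all numbers less than `n` -/
def allN (f : ℕ → Bool) : ℕ → Bool
  | 0 => true
  | n + 1 => f n && allN f n

theorem allN_iff {f : ℕ → Bool} : ∀ {n : ℕ}, allN f n = true → ∀ i, i < n → f i = true
  | 0, _, i, h => absurd h (Nat.not_lt_zero i)
  | n + 1, h, i, hi => by
    rw [allN, Bool.and_eq_true] at h
    rcases Nat.lt_succ_iff_lt_or_eq.1 hi with h' | h'
    · exact allN_iff h.2 i h'
    · exact h' ▸ h.1

/-- no common bit -/
def noBit (x y : ℕ) : Bool := Nat.beq (Nat.land x y) 0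

theorem noBit_spec {x y : ℕ} (h : noBit x y = true) {i : ℕ} (hx : x.testBit i = true) :
    y.testBit i = false := by
  have h1 : Nat.land x y = 0 := Nat.eq_of_beq_eq_true h
  have h2 := tb_land x y i
  rw [h1, hx] at h2
  simpa using h2.symm

/-- the test of White's moves: `X` a set of states (with the rook in class `q`), `Bd q'` the set
of states with the rook in class `q'` where Black, to move, is lost -/
def chkW (X : ℕ) (Bd : ℕ → ℕ) (q : ℕ) : Bool :=
  allN (fun j => noBit X (Nat.shiftRight (Bd q) j) && noBit X (Nat.shiftLeft (Bd q) j)) 10 &&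
  (allN (fun q' => noBit X (Bd q')) 5 &&
  ((noBit X (Nat.shiftRight (Bd q) 32) && noBit X (Nat.shiftLeft (Bd q) 32)) &&
  ((noBit X (Nat.shiftRight (Bd q) 384) && noBit X (Nat.shiftLeft (Bd q) 384)) &&
  ((noBit X (Nat.shiftRight (Bd q) 352) && noBit X (Nat.shiftLeft (Bd q) 352)) &&
  (noBit X (Nat.shiftRight (Bd q) 416) && noBit X (Nat.shiftLeft (Bd q) 416))))))

theorem shr_false {X Y s i j : ℕ} (h : noBit X (Nat.shiftRight Y s) = true)
    (hx : X.testBit i = true) (hj : j = i + s) : Y.testBit j = false := by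
  have := noBit_spec h hx
  rw [tb_shr] at this
  rw [hj, Nat.add_comm]
  exact this

theorem shl_false {X Y s i j : ℕ} (h : noBit X (Nat.shiftLeft Y s) = true)
    (hx : X.testBit i = true) (hj : i = j + s) : Y.testBit j = false := by
  have := noBit_spec h hx
  rw [tb_shl] at this
  have h1 : s ≤ i := by omega
  have h2 : i - s = j := by omega
  simpa [h1, h2] using this

theorem chkW_horizontal {X : ℕ} {Bd : ℕ → ℕ} {q : ℕ} (h : chkW X Bd q = true)
    {kx ky rx : ℕ} (hX : X.testBit (code kx ky rx) = true) {rx' : ℕ} (h1 : rx ≤ rx' + 9)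
    (h2 : rx' ≤ rx + 9) : (Bd q).testBit (code kx ky rx') = false := by
  rw [chkW, Bool.and_eq_true] at h
  have h3 := allN_iff h.1
  rcases le_total rx rx' with h4 | h4
  · have h5 := h3 (rx' - rx) (by omega)
    rw [Bool.and_eq_true] at h5
    exact shr_false h5.1 hX (by unfold code; omega)
  · have h5 := h3 (rx - rx') (by omega)
    rw [Bool.and_eq_true] at h5
    exact shl_false h5.2 hX (by unfold code; omega)

theorem chkW_vertical {X : ℕ} {Bd : ℕ → ℕ} {q : ℕ} (h : chkW X Bd q = true)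
    {i : ℕ} (hX : X.testBit i = true) {q' : ℕ} (h1 : q' < 5) : (Bd q').testBit i = false := by
  rw [chkW, Bool.and_eq_true, Bool.and_eq_true] at h
  exact noBit_spec (allN_iff h.2.1 q' h1) hX

theorem chkW_king {X : ℕ} {Bd : ℕ → ℕ} {q : ℕ} (h : chkW X Bd q = true)
    {kx ky rx : ℕ} (hX : X.testBit (code kx ky rx) = true) {kx' ky' : ℕ}
    (h1 : kx ≤ kx' + 1) (h2 : kx' ≤ kx + 1) (h3 : ky ≤ ky' + 1) (h4 : ky' ≤ ky + 1) :
    (Bd q).testBit (code kx' ky' rx) = false := by
  have h0 := h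
  rw [chkW] at h
  simp only [Bool.and_eq_true] at h
  obtain ⟨-, -, ⟨a1, a2⟩, ⟨b1, b2⟩, ⟨c1, c2⟩, d1, d2⟩ := h
  have hx : kx' = kx ∨ kx' = kx + 1 ∨ kx = kx' + 1 := by omega
  have hy : ky' = ky ∨ ky' = ky + 1 ∨ ky = ky' + 1 := by omega
  rcases hx with hx | hx | hx <;> rcases hy with hy | hy | hy
  · subst hx; subst hy
    exact chkW_horizontal h0 hX (by omega) (by omega)
  · exact shr_false b1 hX (by unfold code; omega)
  · exact shl_false b2 hX (by unfold code; omega)
  · exact shr_false a1 hX (by unfold code; omega)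
  · exact shr_false d1 hX (by unfold code; omega)
  · exact shl_false c2 hX (by unfold code; omega)
  · exact shl_false a2 hX (by unfold code; omega)
  · exact shr_false c1 hX (by unfold code; omega)
  · exact shl_false d2 hX (by unfold code; omega)

/-- nearness of squares, as a Boolean -/
def nearB (ax ay bx by' : ℕ) : Bool :=
  Nat.ble ax (bx + 1) && (Nat.ble bx (ax + 1) && (Nat.ble ay (by' + 1) && Nat.ble by' (ay + 1)))

theorem nearB_iff {ax ay bx by' : ℕ} :
    nearB ax ay bx by' = true ↔ Near (ax, ay) (bx, by') := by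
  simp [nearB, Near]

/-- all states that can occur with Black to move (Black king on `(bx, by')`, rook in class `q`,
`M` files, White king on the ranks `1, ..., KL`) -/
def V (M KL bx by' q : ℕ) : ℕ :=
  mkN (fun n => bif Nat.ble 1 (n % 12) && (Nat.ble (n % 12) M && (Nat.ble 1 (n / 12) &&
      (Nat.ble (n / 12) KL && !(nearB (n % 12) (n / 12) bx by')))) then
    (bif Nat.ble q 2 && Nat.beq (n / 12 + 1) (by' + q) then
      Nat.land (Nat.xor (2 ^ (M + 1) - 2) (2 ^ (n % 12))) 4294967295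
      else Nat.land (2 ^ (M + 1) - 2) 4294967295) else 0) 144

theorem land_lt (x : ℕ) : Nat.land x 4294967295 < 2 ^ 32 := by
  have : Nat.land x 4294967295 ≤ 4294967295 := Nat.and_le_right
  omega

theorem tb_ff (r : ℕ) (hr : r < 32) : Nat.testBit 4294967295 r = true := by
  have : (4294967295 : ℕ) = 2 ^ 32 - 1 := by norm_num
  rw [this, Nat.testBit_two_pow_sub_one]
  simpa using hr

theorem tb_row {M r : ℕ} (h1 : 1 ≤ r) (h2 : r ≤ M) : (2 ^ (M + 1) - 2).testBit r = true := by
  obtain ⟨r, rfl⟩ : ∃ s, r = s + 1 := ⟨r - 1, by omega⟩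
  have : 2 ^ (M + 1) - 2 = 2 * (2 ^ M - 1) := by rw [pow_succ]; omega
  rw [this, Nat.testBit_succ, Nat.mul_div_cancel_left _ (by norm_num),
    Nat.testBit_two_pow_sub_one]
  simp
  omega

theorem V_spec {M KL bx by' q kx ky rx : ℕ} (hM : M ≤ 11) (hKL : KL ≤ 11)
    (h1 : 1 ≤ kx) (h2 : kx ≤ M) (h3 : 1 ≤ ky) (h4 : ky ≤ KL) (h5 : 1 ≤ rx) (h6 : rx ≤ M)
    (h7 : ¬ Near (kx, ky) (bx, by')) (h8 : q ≤ 2 → ky + 1 = by' + q → kx ≠ rx) :
    (V M KL bx by' q).testBit (code kx ky rx) = true := by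
  have e1 : (kx + 12 * ky) % 12 = kx := by omega
  have e2 : (kx + 12 * ky) / 12 = ky := by omega
  unfold V code
  rw [testBit_mkN]
  · rw [e1, e2]
    have n1 : nearB kx ky bx by' = false := by
      rw [← Bool.not_eq_true]
      exact fun h => h7 (nearB_iff.1 h)
    have n2 : Nat.ble 1 kx = true := Nat.ble_eq_true_of_le h1
    have n3 : Nat.ble kx M = true := Nat.ble_eq_true_of_le h2
    have n4 : Nat.ble 1 ky = true := Nat.ble_eq_true_of_le h3
    have n5 : Nat.ble ky KL = true := Nat.ble_eq_true_of_le h4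
    have n6 : kx + 12 * ky < 144 := by omega
    rw [n1, n2, n3, n4, n5]
    simp only [n6, decide_true, Bool.true_and, Bool.not_false, Bool.and_self, cond_true]
    cases hc : (Nat.ble q 2 && Nat.beq (ky + 1) (by' + q))
    · rw [cond_false, tb_land, tb_ff _ (by omega), tb_row h5 h6]
      rfl
    · rw [Bool.and_eq_true] at hc
      have := h8 (Nat.le_of_ble_eq_true hc.1) (Nat.eq_of_beq_eq_true hc.2)
      rw [cond_true, tb_land, tb_ff _ (by omega), tb_xor, tb_row h5 h6,
        Nat.testBit_two_pow_of_ne this]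
      rfl
  · intro i
    cases (Nat.ble 1 (i % 12) && (Nat.ble (i % 12) M && (Nat.ble 1 (i / 12) &&
      (Nat.ble (i / 12) KL && !(nearB (i % 12) (i / 12) bx by')))))
    · simp
    · rw [cond_true]
      cases (Nat.ble q 2 && Nat.beq (i / 12 + 1) (by' + q))
      · exact land_lt _
      · exact land_lt _
  · omega

/-- the White king is not near the square `(cx, cy)` -/
def NN (cx cy : ℕ) : ℕ :=
  mkN (fun n => bif nearB (n % 12) (n / 12) cx cy then 0 else 4294967295) 144

theorem NN_spec {cx cy kx ky rx : ℕ} (h1 : kx ≤ 11) (h3 : rx < 32)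
    (h : (NN cx cy).testBit (code kx ky rx) = true) : ¬ Near (kx, ky) (cx, cy) := by
  have e1 : (kx + 12 * ky) % 12 = kx := by omega
  have e2 : (kx + 12 * ky) / 12 = ky := by omega
  unfold NN code at h
  rw [testBit_mkN _ _ _ _ _ h3] at h
  · intro hn
    rw [e1, e2, nearB_iff.2 hn] at h
    simp at h
  · intro i
    cases nearB (i % 12) (i / 12) cx cy
    · simp
    · simp

/-- the rook is on file `x` -/
def FL (x : ℕ) : ℕ := mkN (fun _ => Nat.land (2 ^ x) 4294967295) 144

theorem FL_spec {x kx ky rx : ℕ} (h1 : kx ≤ 11) (h2 : ky ≤ 11) (h3 : rx < 32) :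
    (FL x).testBit (code kx ky rx) = decide (x = rx) := by
  unfold FL code
  rw [testBit_mkN _ (fun _ => land_lt _) _ _ _ h3, tb_land, tb_ff _ h3, Nat.testBit_two_pow]
  have : kx + 12 * ky < 144 := by omega
  simp [this]

/-- the class of the rank of the rook, relative to the rank of the Black king -/
def cls (ry by' : ℕ) : ℕ := if ry + 2 ≤ by' then 4 else if by' + 2 ≤ ry then 3 else ry + 1 - by'

theorem cls_lt (ry by' : ℕ) : cls ry by' < 5 := by
  unfold cls
  split_ifs <;> omega

/-- the set of safe states after a move of the Black king to the square `(cx, cy)`, by `j - 1`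
ranks -/
def stp (S : ℕ → ℕ → ℕ → ℕ) (q j cx cy : ℕ) : ℕ :=
  bif Nat.beq j 1 then (bif Nat.beq q 1 then 0 else S cx cy q)
  else bif Nat.beq j 2 then
    (bif Nat.beq q 0 then S cx cy 4 else bif Nat.beq q 1 then S cx cy 0 else
      bif Nat.beq q 2 then 0 else bif Nat.beq q 3 then Nat.land (S cx cy 3) (S cx cy 2)
      else S cx cy 4)
  else
    (bif Nat.beq q 0 then 0 else bif Nat.beq q 1 then S cx cy 2 else
      bif Nat.beq q 2 then S cx cy 3 else bif Nat.beq q 3 then S cx cy 3
      else Nat.land (S cx cy 4) (S cx cy 0))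

theorem stp_spec {S : ℕ → ℕ → ℕ → ℕ} {ry by' by2 j cx cy i : ℕ} (hj : j < 3)
    (h2 : by2 + 1 = by' + j) 
    (h : (stp S (cls ry by') j cx cy).testBit i = true) :
    (S cx cy (cls ry by2)).testBit i = true ∧ ry ≠ by2 := by
  unfold cls at h
  split_ifs at h with c1 c2
  · -- class 4
    have e0 : cls ry by2 = 4 ∨ (j = 0 ∧ cls ry by2 = 0) := by
      unfold cls
      split_ifs <;> omega
    have e1 : ry ≠ by2 := by omega
    interval_cases j
    · simp only [stp, Nat.beq, cond_true, cond_false, tb_land, Bool.and_eq_true] at h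
      rcases e0 with e0 | ⟨-, e0⟩
      · exact ⟨e0 ▸ h.1, e1⟩
      · exact ⟨e0 ▸ h.2, e1⟩
    · simp only [stp, Nat.beq, cond_true, cond_false] at h
      rcases e0 with e0 | ⟨e, -⟩
      · exact ⟨e0 ▸ h, e1⟩
      · omega
    · simp only [stp, Nat.beq, cond_true, cond_false] at h
      rcases e0 with e0 | ⟨e, -⟩
      · exact ⟨e0 ▸ h, e1⟩
      · omega
  · have e0 : cls ry by2 = 3 ∨ (j = 2 ∧ cls ry by2 = 2) := by
      unfold cls
      split_ifs <;> omega
    have e1 : ry ≠ by2 := by omega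
    interval_cases j
    · simp only [stp, Nat.beq, cond_true, cond_false] at h
      rcases e0 with e0 | ⟨e, -⟩
      · exact ⟨e0 ▸ h, e1⟩
      · omega
    · simp only [stp, Nat.beq, cond_true, cond_false] at h
      rcases e0 with e0 | ⟨e, -⟩
      · exact ⟨e0 ▸ h, e1⟩
      · omega
    · simp only [stp, Nat.beq, cond_true, cond_false, tb_land, Bool.and_eq_true] at h
      rcases e0 with e0 | ⟨-, e0⟩
      · exact ⟨e0 ▸ h.1, e1⟩
      · exact ⟨e0 ▸ h.2, e1⟩
  · obtain ⟨q, hq⟩ : ∃ q, q = ry + 1 - by' := ⟨_, rfl⟩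
    rw [← hq] at h
    have hq3 : q < 3 := by omega
    have hq4 : ry + 1 = by' + q := by omega
    interval_cases j <;> interval_cases q <;>
      simp only [stp, Nat.beq, cond_true, cond_false, Nat.zero_testBit] at h
    all_goals first
      | exact absurd h Bool.false_ne_true
      | (have e0 : cls ry by2 = 2 := by (unfold cls; split_ifs <;> omega)
         exact ⟨e0 ▸ h, by omega⟩)
      | (have e0 : cls ry by2 = 3 := by (unfold cls; split_ifs <;> omega)
         exact ⟨e0 ▸ h, by omega⟩)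
      | (have e0 : cls ry by2 = 0 := by (unfold cls; split_ifs <;> omega)
         exact ⟨e0 ▸ h, by omega⟩)
      | (have e0 : cls ry by2 = 4 := by (unfold cls; split_ifs <;> omega)
         exact ⟨e0 ▸ h, by omega⟩)

/-- entry of a list -/
def gt {α : Type} (d : α) : List α → ℕ → α
  | [], _ => d
  | a :: _, 0 => a
  | _ :: l, n + 1 => gt d l n

/-- the union of eight sets -/
def or9 (f : ℕ → ℕ → ℕ) : ℕ :=
  Nat.lor (Nat.lor (Nat.lor (f 0 0) (f 0 1)) (Nat.lor (f 0 2) (f 1 0)))
    (Nat.lor (Nat.lor (f 1 2) (f 2 0)) (Nat.lor (f 2 1) (f 2 2)))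

theorem or9_spec {f : ℕ → ℕ → ℕ} {b : ℕ} (h : (or9 f).testBit b = true) :
    ∃ i j, i < 3 ∧ j < 3 ∧ ¬ (i = 1 ∧ j = 1) ∧ (f i j).testBit b = true := by
  simp only [or9, tb_lor, Bool.or_eq_true] at h
  rcases h with ((h | h) | h | h) | (h | h) | h | h
  · exact ⟨0, 0, by omega, by omega, by omega, h⟩
  · exact ⟨0, 1, by omega, by omega, by omega, h⟩
  · exact ⟨0, 2, by omega, by omega, by omega, h⟩
  · exact ⟨1, 0, by omega, by omega, by omega, h⟩
  · exact ⟨1, 2, by omega, by omega, by omega, h⟩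
  · exact ⟨2, 0, by omega, by omega, by omega, h⟩
  · exact ⟨2, 1, by omega, by omega, by omega, h⟩
  · exact ⟨2, 2, by omega, by omega, by omega, h⟩

/-- the states where the Black king can go to a square with safe set `T`, or take the rook -/
def ctr0 (T cx cy q j : ℕ) : ℕ :=
  Nat.land (NN cx cy) (Nat.lor (diff T (FL cx)) (bif Nat.beq q j then FL cx else 0))

theorem ctr0_spec {T cx cy q j kx ky rx : ℕ} (h1 : kx ≤ 11) (h2 : ky ≤ 11) (h3 : rx < 32)
    (h : (ctr0 T cx cy q j).testBit (code kx ky rx) = true) :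
    ¬ Near (kx, ky) (cx, cy) ∧
      ((T.testBit (code kx ky rx) = true ∧ cx ≠ rx) ∨ (q = j ∧ cx = rx)) := by
  rw [ctr0, tb_land, Bool.and_eq_true, tb_lor, Bool.or_eq_true, tb_diff, Bool.and_eq_true] at h
  refine ⟨NN_spec h1 h3 h.1, ?_⟩
  rcases h.2 with h | h
  · refine Or.inl ⟨h.1, ?_⟩
    have := h.2
    rw [FL_spec h1 h2 h3] at this
    simpa using this
  · right
    cases hb : Nat.beq q j
    · rw [hb, cond_false, Nat.zero_testBit] at h
      exact absurd h Bool.false_ne_true
    · rw [hb, cond_true, FL_spec h1 h2 h3] at h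
      exact ⟨Nat.eq_of_beq_eq_true hb, by simpa using h⟩

theorem onBoard_iff (M N : ℕ) (s : ℕ × ℕ) :
    OnBoard (M : ℕ∞) (N : ℕ∞) s ↔ 1 ≤ s.1 ∧ 1 ≤ s.2 ∧ s.1 ≤ M ∧ s.2 ≤ N := by
  simp [OnBoard]

theorem exit_iff (M N : ℕ) (p : Pos) :
    Exit (M : ℕ∞) (N : ℕ∞) p ↔ p.B.1 = M ∨ p.B.2 = N := by
  simp [Exit]

theorem onBoard_top_iff (M : ℕ) (s : ℕ × ℕ) :
    OnBoard (M : ℕ∞) ⊤ s ↔ 1 ≤ s.1 ∧ 1 ≤ s.2 ∧ s.1 ≤ M := by
  simp [OnBoard]

theorem exit_top_iff (M : ℕ) (p : Pos) :
    Exit (M : ℕ∞) ⊤ p ↔ p.B.1 = M := by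
  simp [Exit]

theorem cls_ne_one {ry by' : ℕ} (h : ry ≠ by') : cls ry by' ≠ 1 := by
  unfold cls
  split_ifs <;> omega

theorem cls_le_two {ry by' : ℕ} (h : cls ry by' ≤ 2) : ry + 1 = by' + cls ry by' := by
  unfold cls at h ⊢
  split_ifs at h ⊢ <;> omega

end Pool.Agent.N293.KRK
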