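import Mathlib

/-!
# King and rook against king on a board with west and south edges
-/

set_option autoImplicit false

namespace Pool.Agent.N293.KRK

/-- A position: the squares of the White king, the White rook and the Black king.
The square on file `x` and rank `y` is the pair `(x, y)`, `x, y = 1, 2, 3, ...`. -/
structure Pos where
  K : ℕ × ℕ
  R : ℕ × ℕ
  B : ℕ × ℕ

/-- The squares of the board with `m` files and `n` ranks; `m` or `n` may be `⊤` (no east or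
no north edge). -/
def OnBoard (m n : ℕ∞) (s : ℕ × ℕ) : Prop :=
  1 ≤ s.1 ∧ 1 ≤ s.2 ∧ (s.1 : ℕ∞) ≤ m ∧ (s.2 : ℕ∞) ≤ n

/-- Equal squares or squares a king's move apart. -/
def Near (s t : ℕ × ℕ) : Prop :=
  s.1 ≤ t.1 + 1 ∧ t.1 ≤ s.1 + 1 ∧ s.2 ≤ t.2 + 1 ∧ t.2 ≤ s.2 + 1

/-- Different squares on a common file or rank. -/
def Line (s t : ℕ × ℕ) : Prop := s ≠ t ∧ (s.1 = t.1 ∨ s.2 = t.2)

/-- `u` is on a common file or rank with `s` and `t`, strictly between them. -/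
def Btw (s u t : ℕ × ℕ) : Prop :=
  (s.1 = u.1 ∧ u.1 = t.1 ∧ (s.2 < u.2 ∧ u.2 < t.2 ∨ t.2 < u.2 ∧ u.2 < s.2)) ∨
  (s.2 = u.2 ∧ u.2 = t.2 ∧ (s.1 < u.1 ∧ u.1 < t.1 ∨ t.1 < u.1 ∧ u.1 < s.1))

/-- The rook attacks `s`, where only the White king can stand in the way. -/
def Attacks (p : Pos) (s : ℕ × ℕ) : Prop := Line p.R s ∧ ¬ Btw p.R p.K s

/-- `q` arises from `p` by a legal move of White, with the king or with the rook. -/
def WhiteMove (m n : ℕ∞) (p q : Pos) : Prop :=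
  q.B = p.B ∧
  ((q.R = p.R ∧ q.K ≠ p.K ∧ Near p.K q.K ∧ OnBoard m n q.K ∧ q.K ≠ p.R ∧ ¬ Near q.K p.B) ∨
   (q.K = p.K ∧ Line p.R q.R ∧ OnBoard m n q.R ∧ q.R ≠ p.K ∧ q.R ≠ p.B ∧
     ¬ Btw p.R p.K q.R ∧ ¬ Btw p.R p.B q.R))

/-- The Black king may legally go to the square `s` of the board (taking the rook if it is
on `s`). -/
def BlackMove (m n : ℕ∞) (p : Pos) (s : ℕ × ℕ) : Prop :=
  s ≠ p.B ∧ Near p.B s ∧ OnBoard m n s ∧ ¬ Near p.K s ∧ ¬ Attacks p s

/-- The Black king can leave the board across the east or the north edge. -/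
def Exit (m n : ℕ∞) (p : Pos) : Prop := (p.B.1 : ℕ∞) = m ∨ (p.B.2 : ℕ∞) = n

/-- White, to move in `p`, can force checkmate within `N` moves. -/
def MateIn (m n : ℕ∞) : ℕ → Pos → Prop
  | 0, _ => False
  | N + 1, p => ∃ q, WhiteMove m n p q ∧ ¬ Exit m n q ∧
      (Attacks q q.B ∨ ∃ s, BlackMove m n q s) ∧
      ∀ s, BlackMove m n q s → s ≠ q.R ∧ MateIn m n N ⟨q.K, q.R, s⟩

/-- White, to move in `p`, can force checkmate. -/
inductive Wins (m n : ℕ∞) : Pos → Prop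
  | move (p q : Pos) (h : WhiteMove m n p q) (he : ¬ Exit m n q)
      (hs : Attacks q q.B ∨ ∃ s, BlackMove m n q s)
      (hr : ∀ s, BlackMove m n q s → s ≠ q.R)
      (hw : ∀ s, BlackMove m n q s → Wins m n ⟨q.K, q.R, s⟩) : Wins m n p

/-- The starting position: White king a1, White rook b2, Black king c3. -/
def start : Pos := ⟨(1, 1), (2, 2), (3, 3)⟩

end Pool.Agent.N293.KRK
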