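import Pool.Agent.N293.KRK.EightData

/-!
# The boards with 8 files
-/

set_option autoImplicit false

namespace Pool.Agent.N293.KRK

/-- which classes of the rook are possible -/
def possB (by' q : ℕ) : Bool :=
  bif Nat.beq q 0 then Nat.ble 2 by' else bif Nat.beq q 4 then Nat.ble 3 by' else true

/-- the White king is on the lowest rank -/
def R1 : ℕ := mkN (fun n => bif Nat.ble (n / 12) 1 then 4294967295 else 0) 144

/-- the White king is not on the lowest rank -/
def R2 : ℕ := mkN (fun n => bif Nat.ble (n / 12) 1 then 0 else 4294967295) 144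

theorem R1_spec {kx ky rx : ℕ} (h1 : kx ≤ 11) (h3 : rx < 32)
    (h : R1.testBit (code kx ky rx) = true) : ky ≤ 1 := by
  have e2 : (kx + 12 * ky) / 12 = ky := by omega
  unfold R1 code at h
  rw [testBit_mkN _ _ _ _ _ h3, e2] at h
  · cases hb : Nat.ble ky 1
    · simp [hb] at h
    · exact Nat.le_of_ble_eq_true hb
  · intro i
    cases Nat.ble (i / 12) 1
    · simp
    · simp

theorem R2_spec {kx ky rx : ℕ} (h1 : kx ≤ 11) (h3 : rx < 32)
    (h : R2.testBit (code kx ky rx) = true) : 2 ≤ ky := by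
  have e2 : (kx + 12 * ky) / 12 = ky := by omega
  unfold R2 code at h
  rw [testBit_mkN _ _ _ _ _ h3, e2] at h
  · cases hb : Nat.ble ky 1
    · by_contra h'
      rw [Nat.ble_eq_true_of_le (by omega)] at hb
      exact absurd hb.symm Bool.false_ne_true
    · simp [hb] at h
  · intro i
    cases Nat.ble (i / 12) 1
    · simp
    · simp

/-- the safe states after a move of the Black king, which is on a rank `≥ 6` -/
def stpT (S : ℕ → ℕ → ℕ → ℕ) (q j cx : ℕ) : ℕ :=
  bif Nat.beq j 1 then stp S q 1 cx 6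
  else bif Nat.beq j 2 then
    Nat.lor (Nat.land (Nat.shiftLeft (stp S q 2 cx 6) 384) R2) (Nat.land (stp S q 2 cx 6) R1)
  else
    Nat.land (stp S q 0 cx 5) (Nat.land (Nat.shiftRight (stp S q 0 cx 6) 384)
      (Nat.lor (stp S q 0 cx 6) R2))

/-- the states where the Black king can go to the square in direction `(i - 1, j - 1)` -/
def ctrB (S : ℕ → ℕ → ℕ → ℕ) (bx by' q i j : ℕ) : ℕ :=
  bif Nat.beq (bx + i) 1 || Nat.beq (by' + j) 1 then 0 else
    ctr0 (bif Nat.beq by' 6 then stpT S q j (bx + i - 1) else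
      stp S q j (bx + i - 1) (by' + j - 1)) (bx + i - 1) (by' + j - 1) q j

/-- the states where Black, to move, is not known to be safe -/
def BadB (S : ℕ → ℕ → ℕ → ℕ) (bx by' q : ℕ) : ℕ :=
  bif possB by' q then diff (V 8 7 bx by' q) (or9 (ctrB S bx by' q)) else 0

/-- the test for one square of the Black king -/
def chkB (S : ℕ → ℕ → ℕ → ℕ) (bx by' : ℕ) : Bool :=
  allN (fun q => Nat.ble (S bx by' q) (2 ^ 2688 - 1) &&
    ((Nat.beq q 1 || !(possB by' q)) || chkW (S bx by' q) (BadB S bx by') q)) 5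

theorem chkB_all : allN (fun a => allN (fun b => chkB SB (a + 1) (b + 1)) 6) 7 = true := by
  decide +kernel

theorem start_SB : (SB 3 3 0).testBit (code 1 1 2) = true := by
  decide +kernel

theorem chkB_spec {a b : ℕ} (ha : 1 ≤ a) (ha' : a ≤ 7) (hb : 1 ≤ b) (hb' : b ≤ 6) :
    chkB SB a b = true := by
  have := allN_iff (allN_iff chkB_all (a - 1) (by omega)) (b - 1) (by omega)
  rwa [Nat.sub_add_cancel ha, Nat.sub_add_cancel hb] at this

theorem SB_bound {x y q : ℕ} (h1 : 1 ≤ x) (h2 : x ≤ 8) (h3 : 1 ≤ y) (h4 : y ≤ 6) (h5 : q < 5) :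
    SB x y q < 2 ^ 2688 := by
  rcases Nat.lt_or_ge x 8 with h | h
  · have := allN_iff (chkB_spec h1 (by omega) h3 h4) q h5
    rw [Bool.and_eq_true] at this
    have h6 := Nat.le_of_ble_eq_true this.1
    have h7 : 0 < 2 ^ 2688 := Nat.pow_pos (by norm_num)
    exact lt_of_le_of_lt h6 (Nat.sub_lt h7 (by norm_num))
  · obtain rfl : x = 8 := by omega
    have h7 : 0 < 2 ^ 2688 := Nat.pow_pos (by norm_num)
    exact Nat.sub_lt h7 (by norm_num)

theorem SB_row {x y q kx ky rx : ℕ} (h1 : 1 ≤ x) (h2 : x ≤ 8) (h3 : 1 ≤ y) (h4 : y ≤ 6)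
    (h5 : q < 5) (h : (SB x y q).testBit (code kx ky rx) = true) : ky ≤ 6 := by
  by_contra h'
  have h6 := SB_bound h1 h2 h3 h4 h5
  have h7 : (SB x y q).testBit (code kx ky rx) = false := by
    apply Nat.testBit_lt_two_pow
    refine h6.trans_le (Nat.pow_le_pow_right (by norm_num) ?_)
    unfold code
    omega
  rw [h7] at h
  exact Bool.false_ne_true h

/-- the relative rank of the White king -/
def sh (b k : ℕ) : ℕ := if k ≤ b - 6 then 1 else k - (b - 6)

/-- the relative rank of the Black king -/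
def cp (b : ℕ) : ℕ := b - (b - 6)

theorem possB_cls {ry b : ℕ} (h1 : 1 ≤ ry) : possB (cp b) (cls ry b) = true := by
  unfold cls cp
  split_ifs with c1 c2
  · exact Nat.ble_eq_true_of_le (by omega)
  · rfl
  · obtain ⟨q, hq⟩ : ∃ q, q = ry + 1 - b := ⟨_, rfl⟩
    rw [← hq]
    have hq3 : q < 3 := by omega
    have hq4 : ry + 1 = b + q := by omega
    interval_cases q
    · exact Nat.ble_eq_true_of_le (by omega)
    · rfl
    · rfl

/-- the safe positions, White to move -/
def IB (p : Pos) : Prop :=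
  OnBoard ((8 : ℕ) : ℕ∞) ⊤ p.K ∧ OnBoard ((8 : ℕ) : ℕ∞) ⊤ p.R ∧
  OnBoard ((8 : ℕ) : ℕ∞) ⊤ p.B ∧
  ¬ Near p.K p.B ∧ p.R.1 ≠ p.B.1 ∧ p.R.2 ≠ p.B.2 ∧
    (Exit ((8 : ℕ) : ℕ∞) ⊤ p ∨
      (SB p.B.1 (cp p.B.2) (cls p.R.2 p.B.2)).testBit
        (code p.K.1 (sh p.B.2 p.K.2) p.R.1) = true)

theorem sh_near {b k k' : ℕ} (h1 : k ≤ k' + 1) (h2 : k' ≤ k + 1) :
    sh b k ≤ sh b k' + 1 ∧ sh b k' ≤ sh b k + 1 := by
  unfold sh
  split_ifs <;> omega

theorem eight_white {p q : Pos} (hI : IB p) (he : ¬ Exit ((8 : ℕ) : ℕ∞) ⊤ p)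
    (hq : WhiteMove ((8 : ℕ) : ℕ∞) ⊤ p q) :
    (BadB SB p.B.1 (cp p.B.2) (cls q.R.2 p.B.2)).testBit
      (code q.K.1 (sh p.B.2 q.K.2) q.R.1) = false ∧
    OnBoard ((8 : ℕ) : ℕ∞) ⊤ q.K ∧ OnBoard ((8 : ℕ) : ℕ∞) ⊤ q.R ∧
    ¬ Near q.K p.B ∧ q.K ≠ q.R ∧ sh p.B.2 q.K.2 ≤ 7 := by
  obtain ⟨hK, hR, hB, hKB, h1, h2, h3⟩ := hI
  have h3 := h3.resolve_left he
  rw [exit_top_iff] at he
  have hb := (onBoard_top_iff _ _).1 hB
  have hr := (onBoard_top_iff _ _).1 hR
  have hcp : 1 ≤ cp p.B.2 ∧ cp p.B.2 ≤ 6 := by unfold cp; omega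
  have hrow := SB_row hb.1 hb.2.2 hcp.1 hcp.2 (cls_lt _ _) h3
  have hc := chkB_spec (a := p.B.1) (b := cp p.B.2) (by omega) (by omega) hcp.1 hcp.2
  have hc1 := allN_iff hc (cls p.R.2 p.B.2) (cls_lt _ _)
  rw [Bool.and_eq_true] at hc1
  replace hc1 := hc1.2
  rw [possB_cls hr.2.1, Bool.not_true, Bool.or_false] at hc1
  have hc2 : Nat.beq (cls p.R.2 p.B.2) 1 = false := by
    rw [← Bool.not_eq_true]
    exact fun h => cls_ne_one h2 (Nat.eq_of_beq_eq_true h)
  rw [hc2, Bool.false_or] at hc1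
  rcases hq.2 with ⟨e1, -, e2, e3, e4, e5⟩ | ⟨e1, e2, e3, e4, e5, -, -⟩
  · have e6 := sh_near (b := p.B.2) e2.2.2.1 e2.2.2.2
    refine ⟨?_, e3, e1 ▸ hR, e5, e1 ▸ e4, by omega⟩
    rw [e1]
    exact chkW_king hc1 h3 e2.1 e2.2.1 e6.1 e6.2
  · refine ⟨?_, e1 ▸ hK, e3, e1 ▸ hKB, fun h => e4 (h ▸ e1), by rw [e1]; omega⟩
    have hr' := (onBoard_top_iff _ _).1 e3
    rw [e1]
    rcases e2.2 with e6 | e6
    · rw [← e6]
      exact chkW_vertical hc1 h3 (cls_lt _ _)
    · rw [← e6]
      exact chkW_horizontal hc1 h3 (by omega) (by omega)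

/-- the reply of the Black king, in terms of the table -/
theorem eight_step {b k ry kx rx j i cx : ℕ} (hj : j < 3) (hb : 1 ≤ b) (hb2 : 1 ≤ b + j - 1)
    (hk : 1 ≤ k) (hkx : kx ≤ 11) (hrx : rx < 32)
    (hi : i = code kx (sh b k) rx)
    (h : (bif Nat.beq (cp b) 6 then stpT SB (cls ry b) j cx else
      stp SB (cls ry b) j cx (cp b + j - 1)).testBit i = true) :
    (SB cx (cp (b + j - 1)) (cls ry (b + j - 1))).testBit
      (code kx (sh (b + j - 1) k) rx) = true ∧ ry ≠ b + j - 1 := by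
  subst hi
  cases hc : Nat.beq (cp b) 6
  · rw [hc, cond_false] at h
    have hc' : cp b ≠ 6 := fun h' => by simp [h'] at hc
    have h0 := stp_spec (by2 := b + j - 1) hj (by omega) h
    have e1 : cp b + j - 1 = cp (b + j - 1) := by unfold cp at hc' ⊢; omega
    have e2 : sh b k = sh (b + j - 1) k := by
      unfold cp at hc'
      unfold sh
      split_ifs <;> omega
    rw [e1, e2] at h0
    exact h0
  · rw [hc, cond_true] at h
    have hc' := Nat.eq_of_beq_eq_true hc
    have hb6 : 6 ≤ b := by unfold cp at hc'; omega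
    interval_cases j
    · simp only [stpT, Nat.beq, cond_false, tb_land, tb_lor, tb_shr, Bool.and_eq_true,
        Bool.or_eq_true] at h
      obtain ⟨g1, g2, g3⟩ := h
      have f1 := stp_spec (by2 := b + 0 - 1) hj (by omega) g1
      have f2 := stp_spec (by2 := b + 0 - 1) hj (by omega) g2
      refine ⟨?_, f1.2⟩
      rcases Nat.lt_or_ge 6 b with h6 | h6
      · have e1 : cp (b + 0 - 1) = 6 := by unfold cp; omega
        rw [e1]
        have e3 : 384 + code kx (sh b k) rx = code kx (sh b k + 1) rx := by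
          unfold code; omega
        by_cases h7 : k ≤ b - 6
        · have e2 : sh (b + 0 - 1) k = sh b k := by
            unfold sh
            split_ifs <;> omega
          rw [e2]
          rcases g3 with g3 | g3
          · exact (stp_spec (by2 := b + 0 - 1) hj (by omega) g3).1
          · have := R2_spec hkx hrx g3
            unfold sh at this
            rw [if_pos h7] at this
            omega
        · have e2 : sh (b + 0 - 1) k = sh b k + 1 := by
            unfold sh
            split_ifs <;> omega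
          rw [e2, ← e3]
          exact f2.1
      · have e1 : cp (b + 0 - 1) = 5 := by unfold cp; omega
        have e2 : sh (b + 0 - 1) k = sh b k := by
          unfold sh
          split_ifs <;> omega
        rw [e1, e2]
        exact f1.1
    · simp only [stpT, Nat.beq, cond_true] at h
      have f1 := stp_spec (by2 := b + 1 - 1) hj (by omega) h
      rw [Nat.add_sub_cancel] at f1 ⊢
      rw [hc']
      exact f1
    · simp only [stpT, Nat.beq, cond_true, cond_false, tb_land, tb_lor, tb_shl,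
        Bool.and_eq_true, Bool.or_eq_true] at h
      have e1 : cp (b + 2 - 1) = 6 := by unfold cp; omega
      rw [e1]
      rcases h with ⟨⟨g1, g2⟩, g3⟩ | ⟨g1, g2⟩
      · have f1 := stp_spec (by2 := b + 2 - 1) hj (by omega) g2
        have f2 := R2_spec hkx hrx g3
        have e3 : code kx (sh b k) rx - 384 = code kx (sh b k - 1) rx := by
          unfold code; omega
        have e2 : sh (b + 2 - 1) k = sh b k - 1 := by
          unfold sh at f2 ⊢
          split_ifs at f2 ⊢ <;> omega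
        rw [e2, ← e3]
        exact f1
      · have f1 := stp_spec (by2 := b + 2 - 1) hj (by omega) g1
        have f2 := R1_spec hkx hrx g2
        have e2 : sh (b + 2 - 1) k = sh b k := by
          unfold sh at f2 ⊢
          split_ifs at f2 ⊢ <;> omega
        rw [e2]
        exact f1

theorem eight_closed (p : Pos) (hI : IB p) (q : Pos)
    (hq : WhiteMove ((8 : ℕ) : ℕ∞) ⊤ p q) :
    Exit ((8 : ℕ) : ℕ∞) ⊤ q ∨
      ∃ s, BlackMove ((8 : ℕ) : ℕ∞) ⊤ q s ∧ (s = q.R ∨ IB ⟨q.K, q.R, s⟩) := by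
  by_cases he : Exit ((8 : ℕ) : ℕ∞) ⊤ p
  · left
    unfold Exit at he ⊢
    rwa [hq.1]
  right
  obtain ⟨w1, w2, w3, w4, w5, w6⟩ := eight_white hI he hq
  have hB := hI.2.2.1
  rw [exit_top_iff] at he
  rw [← hq.1] at w1 w4 w6 hB he
  have hb := (onBoard_top_iff _ _).1 hB
  have hk := (onBoard_top_iff _ _).1 w2
  have hr := (onBoard_top_iff _ _).1 w3
  have hsh : 1 ≤ sh q.B.2 q.K.2 := by
    unfold sh
    split_ifs <;> omega
  have hV : (V 8 7 q.B.1 (cp q.B.2) (cls q.R.2 q.B.2)).testBit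
      (code q.K.1 (sh q.B.2 q.K.2) q.R.1) = true := by
    refine V_spec (by norm_num) (by norm_num) hk.1 hk.2.2 hsh w6 hr.1 hr.2.2 ?_ ?_
    · intro hn
      apply w4
      refine ⟨hn.1, hn.2.1, ?_, ?_⟩
      · have := hn.2.2.1
        have := hn.2.2.2
        simp only [sh, cp] at *
        split_ifs at * <;> omega
      · have := hn.2.2.1
        have := hn.2.2.2
        simp only [sh, cp] at *
        split_ifs at * <;> omega
    · intro g1 g2 g3
      have g4 := cls_le_two g1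
      refine w5 (Prod.ext g3 ?_)
      simp only [sh, cp] at g2
      split_ifs at g2 <;> omega
  rw [BadB, possB_cls hr.2.1, cond_true, tb_diff, hV, Bool.true_and,
    Bool.not_eq_false'] at w1
  obtain ⟨i, j, hi, hj, hij, h1⟩ := or9_spec w1
  unfold ctrB at h1
  cases hc : (Nat.beq (q.B.1 + i) 1 || Nat.beq (cp q.B.2 + j) 1)
  swap
  · rw [hc, cond_true, Nat.zero_testBit] at h1
    exact absurd h1 Bool.false_ne_true
  rw [hc, cond_false] at h1
  rw [Bool.or_eq_false_iff] at hc
  have hc1 : q.B.1 + i ≠ 1 := fun h => by simp [h] at hc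
  have hc2 : cp q.B.2 + j ≠ 1 := fun h => by simp [h] at hc
  have hc3 : 1 ≤ q.B.2 + j - 1 := by unfold cp at hc2; omega
  obtain ⟨n1, n2⟩ := ctr0_spec (by omega) (by omega) (by omega) h1
  have hs : OnBoard ((8 : ℕ) : ℕ∞) ⊤ (q.B.1 + i - 1, q.B.2 + j - 1) :=
    (onBoard_top_iff _ _).2 ⟨by simp only; omega, by simp only; omega, by simp only; omega⟩
  have n1' : ¬ Near q.K (q.B.1 + i - 1, q.B.2 + j - 1) := by
    intro hn
    apply n1
    refine ⟨hn.1, hn.2.1, ?_, ?_⟩
    · have := hn.2.2.1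
      have := hn.2.2.2
      simp only [sh, cp] at *
      split_ifs at * <;> omega
    · have := hn.2.2.1
      have := hn.2.2.2
      simp only [sh, cp] at *
      split_ifs at * <;> omega
  refine ⟨(q.B.1 + i - 1, q.B.2 + j - 1), ⟨?_, ?_, hs, n1', ?_⟩, ?_⟩
  · intro h
    have e1 := congrArg Prod.fst h
    have e2 := congrArg Prod.snd h
    simp only at e1 e2
    exact hij ⟨by omega, by omega⟩
  · refine ⟨?_, ?_, ?_, ?_⟩ <;> simp only <;> omega
  · rintro ⟨g, -⟩
    rcases n2 with ⟨n2, n3⟩ | ⟨n2, n3⟩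
    · have := (eight_step hj hb.2.1 hc3 hk.2.1 (by omega) (by omega) rfl n2).2
      rcases g.2 with g | g
      · exact n3 g.symm
      · exact this g
    · have := cls_le_two (ry := q.R.2) (by' := q.B.2) (by omega)
      exact g.1 (Prod.ext n3.symm (by simp only; omega))
  · rcases n2 with ⟨n2, n3⟩ | ⟨n2, n3⟩
    · right
      have := eight_step hj hb.2.1 hc3 hk.2.1 (by omega) (by omega) rfl n2
      exact ⟨w2, w3, hs, n1', fun h => n3 h.symm, this.2, Or.inr this.1⟩
    · left
      have := cls_le_two (ry := q.R.2) (by' := q.B.2) (by omega)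
      exact Prod.ext n3 (by simp only; omega)

theorem not_wins_eight : ¬ Wins 8 ⊤ start := by
  refine not_wins_of_closed IB eight_closed ?_
  refine ⟨?_, ?_, ?_, ?_, ?_, ?_, Or.inr start_SB⟩
  · exact (onBoard_top_iff _ _).2 (by simp [start])
  · exact (onBoard_top_iff _ _).2 (by simp [start])
  · exact (onBoard_top_iff _ _).2 (by simp [start])
  · simp [start, Near]
  · simp [start]
  · simp [start]

end Pool.Agent.N293.KRK
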