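import Pool.Agent.N293.KRK.Defs

/-!
# Elementary facts on the game
-/

set_option autoImplicit false

namespace Pool.Agent.N293.KRK

theorem MateIn.wins {m n : ℕ∞} : ∀ {N : ℕ} {p : Pos}, MateIn m n N p → Wins m n p
  | 0, _, h => h.elim
  | N + 1, p, ⟨q, h1, h2, h3, h4⟩ =>
    Wins.move p q h1 h2 h3 (fun s hs => (h4 s hs).1) (fun s hs => MateIn.wins (h4 s hs).2)

theorem OnBoard.mono {m n m' n' : ℕ∞} (hm : m ≤ m') (hn : n ≤ n') {s : ℕ × ℕ}
    (h : OnBoard m n s) : OnBoard m' n' s :=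
  ⟨h.1, h.2.1, h.2.2.1.trans hm, h.2.2.2.trans hn⟩

theorem WhiteMove.mono {m n m' n' : ℕ∞} (hm : m ≤ m') (hn : n ≤ n') {p q : Pos}
    (h : WhiteMove m n p q) : WhiteMove m' n' p q := by
  refine ⟨h.1, ?_⟩
  rcases h.2 with h | h
  · exact Or.inl ⟨h.1, h.2.1, h.2.2.1, h.2.2.2.1.mono hm hn, h.2.2.2.2⟩
  · exact Or.inr ⟨h.1, h.2.1, h.2.2.1.mono hm hn, h.2.2.2⟩

theorem BlackMove.mono {m n m' n' : ℕ∞} (hm : m ≤ m') (hn : n ≤ n') {p : Pos} {s : ℕ × ℕ}
    (h : BlackMove m n p s) : BlackMove m' n' p s :=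
  ⟨h.1, h.2.1, h.2.2.1.mono hm hn, h.2.2.2⟩

theorem Exit.of_mono {m n m' n' : ℕ∞} (hm : m ≤ m') (hn : n ≤ n') {p : Pos}
    (hb : OnBoard m n p.B) (h : Exit m' n' p) : Exit m n p := by
  rcases h with h | h
  · exact Or.inl (le_antisymm hb.2.2.1 (h ▸ hm))
  · exact Or.inr (le_antisymm hb.2.2.2 (h ▸ hn))

theorem BlackMove.of_mono {m n m' n' : ℕ∞} {p : Pos}
    (hb : OnBoard m n p.B) (he : ¬ Exit m n p) {s : ℕ × ℕ}
    (h : BlackMove m' n' p s) : BlackMove m n p s := by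
  refine ⟨h.1, h.2.1, ?_, h.2.2.2⟩
  have h1 : (p.B.1 : ℕ∞) < m := lt_of_le_of_ne hb.2.2.1 (fun h => he (Or.inl h))
  have h2 : (p.B.2 : ℕ∞) < n := lt_of_le_of_ne hb.2.2.2 (fun h => he (Or.inr h))
  have h3 := Order.add_one_le_of_lt h1
  have h4 := Order.add_one_le_of_lt h2
  have h5 : (s.1 : ℕ∞) ≤ (p.B.1 : ℕ∞) + 1 := by
    have := h.2.1.2.1
    exact_mod_cast this
  have h6 : (s.2 : ℕ∞) ≤ (p.B.2 : ℕ∞) + 1 := by
    have := h.2.1.2.2.2
    exact_mod_cast this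
  exact ⟨h.2.2.1.1, h.2.2.1.2.1, h5.trans h3, h6.trans h4⟩

theorem MateIn.mono {m n m' n' : ℕ∞} (hm : m ≤ m') (hn : n ≤ n') :
    ∀ {N : ℕ} {p : Pos}, OnBoard m n p.B → MateIn m n N p → MateIn m' n' N p
  | 0, _, _, h => h
  | N + 1, p, hb, ⟨q, h1, h2, h3, h4⟩ => by
    have hq : OnBoard m n q.B := h1.1 ▸ hb
    refine ⟨q, h1.mono hm hn, fun h => h2 (h.of_mono hm hn hq), ?_, fun s hs => ?_⟩
    · rcases h3 with h3 | ⟨s, h3⟩
      · exact Or.inl h3
      · exact Or.inr ⟨s, h3.mono hm hn⟩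
    · have hs' := hs.of_mono hq h2
      exact ⟨(h4 s hs').1, MateIn.mono hm hn hs'.2.2.1 (h4 s hs').2⟩

theorem Wins.mono {m n m' n' : ℕ∞} (hm : m ≤ m') (hn : n ≤ n') {p : Pos}
    (hb : OnBoard m n p.B) (h : Wins m n p) : Wins m' n' p := by
  induction h with
  | move p q h1 h2 h3 h4 h5 ih =>
    have hq : OnBoard m n q.B := h1.1 ▸ hb
    refine Wins.move p q (h1.mono hm hn) (fun h => h2 (h.of_mono hm hn hq)) ?_
      (fun s hs => h4 s (hs.of_mono hq h2)) (fun s hs => ih s (hs.of_mono hq h2)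
        (hs.of_mono hq h2).2.2.1)
    rcases h3 with h3 | ⟨s, h3⟩
    · exact Or.inl h3
    · exact Or.inr ⟨s, h3.mono hm hn⟩

/-- exchange of files and ranks -/
def Pos.swap (p : Pos) : Pos := ⟨p.K.swap, p.R.swap, p.B.swap⟩

theorem OnBoard.swap {m n : ℕ∞} {s : ℕ × ℕ} (h : OnBoard m n s) : OnBoard n m s.swap :=
  ⟨h.2.1, h.1, h.2.2.2, h.2.2.1⟩

theorem Near.swap {s t : ℕ × ℕ} (h : Near s t) : Near s.swap t.swap :=
  ⟨h.2.2.1, h.2.2.2, h.1, h.2.1⟩

theorem Line.swap {s t : ℕ × ℕ} (h : Line s t) : Line s.swap t.swap :=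
  ⟨fun h' => h.1 (Prod.swap_injective h'), h.2.symm⟩

theorem Btw.swap {s u t : ℕ × ℕ} (h : Btw s u t) : Btw s.swap u.swap t.swap := Or.symm h

theorem Attacks.swap {p : Pos} {s : ℕ × ℕ} (h : Attacks p s) : Attacks p.swap s.swap :=
  ⟨h.1.swap, fun h' => h.2 (by simpa [Pos.swap] using h'.swap)⟩

theorem Pos.swap_swap (p : Pos) : p.swap.swap = p := by simp [Pos.swap]

theorem WhiteMove.swap {m n : ℕ∞} {p q : Pos} (h : WhiteMove m n p q) :
    WhiteMove n m p.swap q.swap := by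
  refine ⟨congrArg Prod.swap h.1, ?_⟩
  rcases h.2 with h | h
  · refine Or.inl ⟨congrArg Prod.swap h.1, fun h' => h.2.1 (Prod.swap_injective h'),
      h.2.2.1.swap, h.2.2.2.1.swap, fun h' => h.2.2.2.2.1 (Prod.swap_injective h'),
      fun h' => h.2.2.2.2.2 (by simpa [Pos.swap] using h'.swap)⟩
  · refine Or.inr ⟨congrArg Prod.swap h.1, h.2.1.swap, h.2.2.1.swap,
      fun h' => h.2.2.2.1 (Prod.swap_injective h'), fun h' => h.2.2.2.2.1 (Prod.swap_injective h'),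
      fun h' => h.2.2.2.2.2.1 (by simpa [Pos.swap] using h'.swap),
      fun h' => h.2.2.2.2.2.2 (by simpa [Pos.swap] using h'.swap)⟩

theorem BlackMove.swap {m n : ℕ∞} {p : Pos} {s : ℕ × ℕ} (h : BlackMove m n p s) :
    BlackMove n m p.swap s.swap :=
  ⟨fun h' => h.1 (Prod.swap_injective h'), h.2.1.swap, h.2.2.1.swap,
    fun h' => h.2.2.2.1 (by simpa [Pos.swap] using h'.swap),
    fun h' => h.2.2.2.2 (by simpa [Pos.swap_swap] using h'.swap)⟩

theorem Exit.swap {m n : ℕ∞} {p : Pos} (h : Exit m n p) : Exit n m p.swap := Or.symm h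

theorem MateIn.swap {m n : ℕ∞} :
    ∀ {N : ℕ} {p : Pos}, MateIn m n N p → MateIn n m N p.swap
  | 0, _, h => h
  | N + 1, p, ⟨q, h1, h2, h3, h4⟩ => by
    refine ⟨q.swap, h1.swap, fun h => h2 (by simpa [Pos.swap_swap] using h.swap), ?_,
      fun s hs => ?_⟩
    · rcases h3 with h3 | ⟨s, h3⟩
      · exact Or.inl h3.swap
      · exact Or.inr ⟨s.swap, h3.swap⟩
    · have hs' := hs.swap
      rw [Pos.swap_swap] at hs'
      refine ⟨fun h => (h4 _ hs').1 (by rw [h]; simp [Pos.swap]), ?_⟩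
      have := MateIn.swap (h4 _ hs').2
      simpa [Pos.swap] using this

theorem Wins.swap {m n : ℕ∞} {p : Pos} (h : Wins m n p) : Wins n m p.swap := by
  induction h with
  | move p q h1 h2 h3 h4 h5 ih =>
    refine Wins.move _ q.swap h1.swap (fun h => h2 (by simpa [Pos.swap_swap] using h.swap)) ?_
      (fun s hs => ?_) (fun s hs => ?_)
    · rcases h3 with h3 | ⟨s, h3⟩
      · exact Or.inl h3.swap
      · exact Or.inr ⟨s.swap, h3.swap⟩
    · have hs' := hs.swap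
      rw [Pos.swap_swap] at hs'
      exact fun h => h4 _ hs' (by rw [h]; simp [Pos.swap])
    · have hs' := hs.swap
      rw [Pos.swap_swap] at hs'
      have := ih _ hs'
      simpa [Pos.swap] using this

/-- a set of positions in which Black can stay refutes a win -/
theorem not_wins_of_closed {m n : ℕ∞} (I : Pos → Prop)
    (h : ∀ p, I p → ∀ q, WhiteMove m n p q →
      Exit m n q ∨ ∃ s, BlackMove m n q s ∧ (s = q.R ∨ I ⟨q.K, q.R, s⟩))
    {p : Pos} (hp : I p) : ¬ Wins m n p := by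
  intro hw
  induction hw with
  | move p q h1 h2 h3 h4 h5 ih =>
    rcases h p hp q h1 with h' | ⟨s, hs, h' | h'⟩
    · exact h2 h'
    · exact h4 s hs h'
    · exact ih s hs h'

end Pool.Agent.N293.KRK
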