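import Pool.Agent.N293.KRK.TenData

/-!
# The board with 10 files and 10 ranks
-/

set_option autoImplicit false

namespace Pool.Agent.N293.KRK

/-- which classes of the rook are possible -/
def possA (by' q : ℕ) : Bool :=
  bif Nat.beq q 0 then Nat.ble 2 by' else bif Nat.beq q 2 then Nat.ble by' 9 else
    bif Nat.beq q 3 then Nat.ble by' 8 else bif Nat.beq q 4 then Nat.ble 3 by' else true

/-- the states where the Black king can go to the square in direction `(i - 1, j - 1)` -/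
def ctrA (S : ℕ → ℕ → ℕ → ℕ) (bx by' q i j : ℕ) : ℕ :=
  bif Nat.beq (bx + i) 1 || Nat.beq (by' + j) 1 then 0 else
    ctr0 (stp S q j (bx + i - 1) (by' + j - 1)) (bx + i - 1) (by' + j - 1) q j

/-- the states where Black, to move, is not known to be safe -/
def BadA (S : ℕ → ℕ → ℕ → ℕ) (bx by' q : ℕ) : ℕ :=
  bif possA by' q then diff (V 10 10 bx by' q) (or9 (ctrA S bx by' q)) else 0

/-- the test for one square of the Black king -/
def chkA (S : ℕ → ℕ → ℕ → ℕ) (bx by' : ℕ) : Bool :=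
  allN (fun q => (Nat.beq q 1 || !(possA by' q)) || chkW (S bx by' q) (BadA S bx by') q) 5

theorem chkA_all : allN (fun a => allN (fun b => chkA SA (a + 1) (b + 1)) 9) 9 = true := by
  decide +kernel

theorem start_SA : (SA 3 3 0).testBit (code 1 1 2) = true := by
  decide +kernel

theorem chkA_spec {a b : ℕ} (ha : 1 ≤ a) (ha' : a ≤ 9) (hb : 1 ≤ b) (hb' : b ≤ 9) :
    chkA SA a b = true := by
  have := allN_iff (allN_iff chkA_all (a - 1) (by omega)) (b - 1) (by omega)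
  rwa [Nat.sub_add_cancel ha, Nat.sub_add_cancel hb] at this

theorem possA_cls {ry by' : ℕ} (h1 : 1 ≤ ry) (h2 : ry ≤ 10) : possA by' (cls ry by') = true := by
  unfold cls
  split_ifs with c1 c2
  · exact Nat.ble_eq_true_of_le (by omega)
  · exact Nat.ble_eq_true_of_le (by omega)
  · obtain ⟨q, hq⟩ : ∃ q, q = ry + 1 - by' := ⟨_, rfl⟩
    rw [← hq]
    have hq3 : q < 3 := by omega
    have hq4 : ry + 1 = by' + q := by omega
    interval_cases q
    · exact Nat.ble_eq_true_of_le (by omega)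
    · rfl
    · exact Nat.ble_eq_true_of_le (by omega)

/-- the safe positions, White to move -/
def IA (p : Pos) : Prop :=
  OnBoard ((10 : ℕ) : ℕ∞) ((10 : ℕ) : ℕ∞) p.K ∧ OnBoard ((10 : ℕ) : ℕ∞) ((10 : ℕ) : ℕ∞) p.R ∧
  OnBoard ((10 : ℕ) : ℕ∞) ((10 : ℕ) : ℕ∞) p.B ∧
  ¬ Near p.K p.B ∧ p.R.1 ≠ p.B.1 ∧ p.R.2 ≠ p.B.2 ∧
    (Exit ((10 : ℕ) : ℕ∞) ((10 : ℕ) : ℕ∞) p ∨
      (SA p.B.1 p.B.2 (cls p.R.2 p.B.2)).testBit (code p.K.1 p.K.2 p.R.1) = true)

theorem ten_white {p q : Pos} (hI : IA p) (he : ¬ Exit ((10 : ℕ) : ℕ∞) ((10 : ℕ) : ℕ∞) p)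
    (hq : WhiteMove ((10 : ℕ) : ℕ∞) ((10 : ℕ) : ℕ∞) p q) :
    (BadA SA p.B.1 p.B.2 (cls q.R.2 p.B.2)).testBit (code q.K.1 q.K.2 q.R.1) = false ∧
    OnBoard ((10 : ℕ) : ℕ∞) ((10 : ℕ) : ℕ∞) q.K ∧ OnBoard ((10 : ℕ) : ℕ∞) ((10 : ℕ) : ℕ∞) q.R ∧
    ¬ Near q.K p.B ∧ q.K ≠ q.R := by
  obtain ⟨hK, hR, hB, hKB, h1, h2, h3⟩ := hI
  have h3 := h3.resolve_left he
  rw [exit_iff] at he
  push Not at he
  have hb := (onBoard_iff _ _ _).1 hB
  have hr := (onBoard_iff _ _ _).1 hR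
  have hc := chkA_spec (a := p.B.1) (b := p.B.2) (by omega) (by omega) (by omega) (by omega)
  have hc1 := allN_iff hc (cls p.R.2 p.B.2) (cls_lt _ _)
  rw [possA_cls hr.2.1 hr.2.2.2, Bool.not_true, Bool.or_false] at hc1
  have hc2 : Nat.beq (cls p.R.2 p.B.2) 1 = false := by
    rw [← Bool.not_eq_true]
    exact fun h => cls_ne_one h2 (Nat.eq_of_beq_eq_true h)
  rw [hc2, Bool.false_or] at hc1
  rcases hq.2 with ⟨e1, -, e2, e3, e4, e5⟩ | ⟨e1, e2, e3, e4, e5, -, -⟩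
  · refine ⟨?_, e3, e1 ▸ hR, e5, e1 ▸ e4⟩
    rw [e1]
    exact chkW_king hc1 h3 e2.1 e2.2.1 e2.2.2.1 e2.2.2.2
  · refine ⟨?_, e1 ▸ hK, e3, e1 ▸ hKB, fun h => e4 (h ▸ e1)⟩
    have hr' := (onBoard_iff _ _ _).1 e3
    rw [e1]
    rcases e2.2 with e6 | e6
    · rw [← e6]
      exact chkW_vertical hc1 h3 (cls_lt _ _)
    · rw [← e6]
      exact chkW_horizontal hc1 h3 (by omega) (by omega)

theorem ten_closed (p : Pos) (hI : IA p) (q : Pos)
    (hq : WhiteMove ((10 : ℕ) : ℕ∞) ((10 : ℕ) : ℕ∞) p q) :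
    Exit ((10 : ℕ) : ℕ∞) ((10 : ℕ) : ℕ∞) q ∨
      ∃ s, BlackMove ((10 : ℕ) : ℕ∞) ((10 : ℕ) : ℕ∞) q s ∧ (s = q.R ∨ IA ⟨q.K, q.R, s⟩) := by
  by_cases he : Exit ((10 : ℕ) : ℕ∞) ((10 : ℕ) : ℕ∞) p
  · left
    unfold Exit at he ⊢
    rwa [hq.1]
  right
  obtain ⟨w1, w2, w3, w4, w5⟩ := ten_white hI he hq
  have hB := hI.2.2.1
  rw [exit_iff] at he
  push Not at he
  rw [← hq.1] at w1 w4 hB he
  have hb := (onBoard_iff _ _ _).1 hB
  have hk := (onBoard_iff _ _ _).1 w2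
  have hr := (onBoard_iff _ _ _).1 w3
  have hV : (V 10 10 q.B.1 q.B.2 (cls q.R.2 q.B.2)).testBit (code q.K.1 q.K.2 q.R.1) = true := by
    refine V_spec (by norm_num) (by norm_num) hk.1 hk.2.2.1 hk.2.1 hk.2.2.2 hr.1 hr.2.2.1 w4 ?_
    intro g1 g2 g3
    have g4 := cls_le_two g1
    exact w5 (Prod.ext g3 (by omega))
  rw [BadA, possA_cls hr.2.1 hr.2.2.2, cond_true, tb_diff, hV, Bool.true_and,
    Bool.not_eq_false'] at w1
  obtain ⟨i, j, hi, hj, hij, h1⟩ := or9_spec w1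
  unfold ctrA at h1
  cases hc : (Nat.beq (q.B.1 + i) 1 || Nat.beq (q.B.2 + j) 1)
  swap
  · rw [hc, cond_true, Nat.zero_testBit] at h1
    exact absurd h1 Bool.false_ne_true
  rw [hc, cond_false] at h1
  rw [Bool.or_eq_false_iff] at hc
  have hc1 : q.B.1 + i ≠ 1 := fun h => by simp [h] at hc
  have hc2 : q.B.2 + j ≠ 1 := fun h => by simp [h] at hc
  obtain ⟨n1, n2⟩ := ctr0_spec (by omega) (by omega) (by omega) h1
  have hs : OnBoard ((10 : ℕ) : ℕ∞) ((10 : ℕ) : ℕ∞) (q.B.1 + i - 1, q.B.2 + j - 1) :=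
    (onBoard_iff _ _ _).2 ⟨by simp only; omega, by simp only; omega, by simp only; omega,
      by simp only; omega⟩
  refine ⟨(q.B.1 + i - 1, q.B.2 + j - 1), ⟨?_, ?_, hs, n1, ?_⟩, ?_⟩
  · intro h
    have e1 := congrArg Prod.fst h
    have e2 := congrArg Prod.snd h
    simp only at e1 e2
    exact hij ⟨by omega, by omega⟩
  · refine ⟨?_, ?_, ?_, ?_⟩ <;> simp only <;> omega
  · rintro ⟨g, -⟩
    rcases n2 with ⟨n2, n3⟩ | ⟨n2, n3⟩
    · have := (stp_spec (by2 := q.B.2 + j - 1) hj (by omega) n2).2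
      rcases g.2 with g | g
      · exact n3 g.symm
      · exact this g
    · have := cls_le_two (ry := q.R.2) (by' := q.B.2) (by omega)
      exact g.1 (Prod.ext n3.symm (by simp only; omega))
  · rcases n2 with ⟨n2, n3⟩ | ⟨n2, n3⟩
    · right
      have := stp_spec (by2 := q.B.2 + j - 1) hj (by omega) n2
      exact ⟨w2, w3, hs, n1, fun h => n3 h.symm, this.2, Or.inr this.1⟩
    · left
      have := cls_le_two (ry := q.R.2) (by' := q.B.2) (by omega)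
      exact Prod.ext n3 (by simp only; omega)

theorem not_wins_ten : ¬ Wins 10 10 start := by
  refine not_wins_of_closed IA ten_closed ?_
  refine ⟨?_, ?_, ?_, ?_, ?_, ?_, Or.inr start_SA⟩
  · exact (onBoard_iff _ _ _).2 (by simp [start])
  · exact (onBoard_iff _ _ _).2 (by simp [start])
  · exact (onBoard_iff _ _ _).2 (by simp [start])
  · simp [start, Near]
  · simp [start]
  · simp [start]

end Pool.Agent.N293.KRK
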