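import Pool.Agent.N293.KRK.Bits

/-!
# Verification of a strategy of White
-/

set_option autoImplicit false

namespace Pool.Agent.N293.KRK

/-- search trees with numbers as keys and values -/
inductive Tree
  | leaf : Tree
  | node (l : Tree) (k v : ℕ) (r : Tree) : Tree

/-- the value at a key (`0`: none) -/
def find (x : ℕ) : Tree → ℕ
  | .leaf => 0
  | .node l k v r =>
    bif Nat.blt x k then find x l else bif Nat.blt k x then find x r else v

/-- all entries -/
def allT (P : ℕ → ℕ → Bool) : Tree → Bool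
  | .leaf => true
  | .node l k v r => allT P l && (P k v && allT P r)

theorem allT_find {P : ℕ → ℕ → Bool} {x : ℕ} : ∀ {t : Tree}, allT P t = true →
    find x t ≠ 0 → P x (find x t) = true
  | .leaf, _, h => absurd rfl h
  | .node l k v r, h, h0 => by
    rw [allT, Bool.and_eq_true, Bool.and_eq_true] at h
    rw [find] at h0 ⊢
    cases h1 : Nat.blt x k
    · rw [h1, cond_false] at h0
      rw [cond_false]
      cases h2 : Nat.blt k x
      · rw [cond_false]
        have h3 : x = k := by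
          have a1 : ¬ x < k := fun h => by
            rw [show Nat.blt x k = true from Nat.ble_eq_true_of_le h] at h1
            exact Bool.false_ne_true h1.symm
          have a2 : ¬ k < x := fun h => by
            rw [show Nat.blt k x = true from Nat.ble_eq_true_of_le h] at h2
            exact Bool.false_ne_true h2.symm
          omega
        rw [h3]
        exact h.2.1
      · rw [h2, cond_true] at h0
        rw [cond_true]
        exact allT_find h.2.2 h0
    · rw [h1, cond_true] at h0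
      rw [cond_true]
      exact allT_find h.1 h0

/-- different squares on a common file or rank, as a Boolean -/
def lineB (a b c d : ℕ) : Bool :=
  (Nat.beq a c && !(Nat.beq b d)) || (Nat.beq b d && !(Nat.beq a c))

theorem beq_iff {a b : ℕ} : Nat.beq a b = true ↔ a = b :=
  ⟨Nat.eq_of_beq_eq_true, fun h => h ▸ Nat.beq_refl a⟩

theorem beq_false_iff {a b : ℕ} : Nat.beq a b = false ↔ a ≠ b := by
  rw [← Bool.not_eq_true, beq_iff]

theorem blt_iff {a b : ℕ} : Nat.blt a b = true ↔ a < b :=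
  ⟨Nat.le_of_ble_eq_true, Nat.ble_eq_true_of_le⟩

theorem ble_iff {a b : ℕ} : Nat.ble a b = true ↔ a ≤ b :=
  ⟨Nat.le_of_ble_eq_true, Nat.ble_eq_true_of_le⟩

theorem lineB_iff {a b c d : ℕ} : lineB a b c d = true ↔ Line (a, b) (c, d) := by
  simp only [lineB, Bool.or_eq_true, Bool.and_eq_true, Bool.not_eq_true', beq_iff,
    beq_false_iff, Line, ne_eq, Prod.mk.injEq, not_and]
  tauto

/-- `u` between `s` and `t`, as a Boolean -/
def btwB (s1 s2 u1 u2 t1 t2 : ℕ) : Bool :=
  (Nat.beq s1 u1 && (Nat.beq u1 t1 && ((Nat.blt s2 u2 && Nat.blt u2 t2) ||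
    (Nat.blt t2 u2 && Nat.blt u2 s2)))) ||
  (Nat.beq s2 u2 && (Nat.beq u2 t2 && ((Nat.blt s1 u1 && Nat.blt u1 t1) ||
    (Nat.blt t1 u1 && Nat.blt u1 s1))))

theorem btwB_iff {s1 s2 u1 u2 t1 t2 : ℕ} :
    btwB s1 s2 u1 u2 t1 t2 = true ↔ Btw (s1, s2) (u1, u2) (t1, t2) := by
  simp only [btwB, Bool.or_eq_true, Bool.and_eq_true, beq_iff, blt_iff, Btw]

/-- the rook on `(c, d)` attacks `(e, f)`, the White king on `(a, b)` -/
def attB (a b c d e f : ℕ) : Bool := lineB c d e f && !(btwB c d a b e f)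

theorem attB_iff {a b c d e f : ℕ} {s : ℕ × ℕ} :
    attB a b c d e f = true ↔ Attacks ⟨(a, b), (c, d), s⟩ (e, f) := by
  rw [attB, Bool.and_eq_true, Bool.not_eq_true', lineB_iff, Attacks, ← btwB_iff,
    Bool.not_eq_true]

/-- a legal move of White on the board with 9 files and 11 ranks from the position
`(a, b), (c, d), (e, f)` to the position `(a', b'), (c', d'), (e, f)` -/
def wmB (a b c d e f a' b' c' d' : ℕ) : Bool :=
  bif Nat.beq c c' && Nat.beq d d' then
    !(Nat.beq a a' && Nat.beq b b') && (nearB a b a' b' && ((Nat.ble 1 a' && (Nat.ble 1 b' &&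
      (Nat.ble a' 9 && Nat.ble b' 11))) && (!(Nat.beq a' c && Nat.beq b' d) &&
      !(nearB a' b' e f))))
  else
    (Nat.beq a a' && Nat.beq b b') && (lineB c d c' d' && ((Nat.ble 1 c' && (Nat.ble 1 d' &&
      (Nat.ble c' 9 && Nat.ble d' 11))) && (!(Nat.beq c' a && Nat.beq d' b) &&
      (!(Nat.beq c' e && Nat.beq d' f) && (!(btwB c d a b c' d') && !(btwB c d e f c' d'))))))

theorem wmB_spec {a b c d e f a' b' c' d' : ℕ} (h : wmB a b c d e f a' b' c' d' = true) :
    WhiteMove ((9 : ℕ) : ℕ∞) ((11 : ℕ) : ℕ∞) ⟨(a, b), (c, d), (e, f)⟩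
      ⟨(a', b'), (c', d'), (e, f)⟩ := by
  refine ⟨rfl, ?_⟩
  unfold wmB at h
  cases hc : Nat.beq c c' && Nat.beq d d'
  · right
    rw [hc, cond_false] at h
    simp only [Bool.and_eq_true, Bool.not_eq_true', beq_iff, ble_iff, lineB_iff,
      ← Bool.not_eq_true, btwB_iff] at h
    simp only [onBoard_iff, ne_eq, Prod.mk.injEq, not_and]
    obtain ⟨h1, h2, h3, h4, h5, h6, h7⟩ := h
    exact ⟨⟨h1.1.symm, h1.2.symm⟩, h2, h3, fun g g' => h4 ⟨g, g'⟩, fun g g' => h5 ⟨g, g'⟩,
      h6, h7⟩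
  · left
    rw [hc, cond_true] at h
    simp only [Bool.and_eq_true, Bool.not_eq_true', beq_iff, ble_iff, nearB_iff,
      ← Bool.not_eq_true] at h hc
    simp only [onBoard_iff, ne_eq, Prod.mk.injEq, not_and]
    obtain ⟨h1, h2, h3, h4, h5⟩ := h
    exact ⟨⟨hc.1.symm, hc.2.symm⟩, fun g g' => h1 ⟨g.symm, g'.symm⟩, h2, h3,
      fun g g' => h4 ⟨g, g'⟩, h5⟩

/-- number of a position -/
def enc (a b c d e f : ℕ) : ℕ := a + 16 * b + 256 * c + 4096 * d + 65536 * e + 1048576 * f

/-- position of a number -/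
def dec (n : ℕ) : Pos :=
  ⟨(n % 16, n / 16 % 16), (n / 256 % 16, n / 4096 % 16), (n / 65536 % 16, n / 1048576)⟩

theorem dec_enc {a b c d e f : ℕ} (ha : a < 16) (hb : b < 16) (hc : c < 16) (hd : d < 16)
    (he : e < 16) : dec (enc a b c d e f) = ⟨(a, b), (c, d), (e, f)⟩ := by
  have h1 : enc a b c d e f % 16 = a := by unfold enc; omega
  have h2 : enc a b c d e f / 16 % 16 = b := by unfold enc; omega
  have h3 : enc a b c d e f / 256 % 16 = c := by unfold enc; omega
  have h4 : enc a b c d e f / 4096 % 16 = d := by unfold enc; omega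
  have h5 : enc a b c d e f / 65536 % 16 = e := by unfold enc; omega
  have h6 : enc a b c d e f / 1048576 = f := by unfold enc; omega
  rw [dec, h1, h2, h3, h4, h5, h6]

/-- the Black king cannot go to `(x, y)` -/
def noMove (a b c d x y : ℕ) : Bool :=
  (Nat.beq x 0 || Nat.beq y 0) || (nearB a b x y || attB a b c d x y)

/-- the move of the Black king from `(e, f)` in direction `(i - 1, j - 1)` is not possible, or
leads to a position of the table with a smaller bound, and does not take the rook -/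
def repB (t : Tree) (w a b c d e f i j : ℕ) : Bool :=
  noMove a b c d (e + i - 1) (f + j - 1) ||
    (!(Nat.beq (e + i - 1) c && Nat.beq (f + j - 1) d) &&
      (Nat.ble 1 (find (enc a b c d (e + i - 1) (f + j - 1)) t % 64) &&
        Nat.blt (find (enc a b c d (e + i - 1) (f + j - 1)) t % 64) w))

/-- the test of a position with Black to move -/
def blkB (t : Tree) (w a b c d e f : ℕ) : Bool :=
  !(Nat.beq e 9 || Nat.beq f 11) &&
  ((attB a b c d e f || (!(noMove a b c d (e + 0 - 1) (f + 0 - 1)) ||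
    (!(noMove a b c d (e + 0 - 1) (f + 1 - 1)) || (!(noMove a b c d (e + 0 - 1) (f + 2 - 1)) ||
    (!(noMove a b c d (e + 1 - 1) (f + 0 - 1)) || (!(noMove a b c d (e + 1 - 1) (f + 2 - 1)) ||
    (!(noMove a b c d (e + 2 - 1) (f + 0 - 1)) || (!(noMove a b c d (e + 2 - 1) (f + 1 - 1)) ||
    !(noMove a b c d (e + 2 - 1) (f + 2 - 1)))))))))) &&
  (repB t w a b c d e f 0 0 && (repB t w a b c d e f 0 1 && (repB t w a b c d e f 0 2 &&
  (repB t w a b c d e f 1 0 && (repB t w a b c d e f 1 2 && (repB t w a b c d e f 2 0 &&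
  (repB t w a b c d e f 2 1 && repB t w a b c d e f 2 2))))))))

/-- the test of an entry -/
def chkT (t : Tree) (n v : ℕ) : Bool :=
  (Nat.ble 1 (v % 64) && ((Nat.ble 1 (n / 65536 % 16) && Nat.ble (n / 65536 % 16) 9) &&
    (Nat.ble 1 (n / 1048576) && Nat.ble (n / 1048576) 11))) &&
  (wmB (n % 16) (n / 16 % 16) (n / 256 % 16) (n / 4096 % 16) (n / 65536 % 16) (n / 1048576)
    (v / 64 % 16) (v / 1024 % 16) (v / 16384 % 16) (v / 262144) && (Nat.ble (v / 262144) 11 &&
  blkB t (v % 64) (v / 64 % 16) (v / 1024 % 16) (v / 16384 % 16) (v / 262144)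
    (n / 65536 % 16) (n / 1048576)))

theorem legal_of {a b c d e f x y : ℕ} (he : e ≤ 8) (hf : f ≤ 10) (h1 : x ≤ e + 1)
    (h2 : e ≤ x + 1) (h3 : y ≤ f + 1) (h4 : f ≤ y + 1) (h5 : ¬ (x = e ∧ y = f))
    (h : noMove a b c d x y = false) :
    BlackMove ((9 : ℕ) : ℕ∞) ((11 : ℕ) : ℕ∞) ⟨(a, b), (c, d), (e, f)⟩ (x, y) := by
  rw [noMove, Bool.or_eq_false_iff, Bool.or_eq_false_iff, Bool.or_eq_false_iff, beq_false_iff,
    beq_false_iff] at h
  obtain ⟨⟨g1, g2⟩, g3, g4⟩ := h
  refine ⟨fun g => h5 ⟨congrArg Prod.fst g, congrArg Prod.snd g⟩, ⟨h2, h1, h4, h3⟩,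
    (onBoard_iff _ _ _).2 ⟨by simp only; omega, by simp only; omega, by simp only; omega,
      by simp only; omega⟩, ?_, ?_⟩
  · rw [← nearB_iff, g3]
    exact Bool.false_ne_true
  · rw [← attB_iff, g4]
    exact Bool.false_ne_true

theorem noMove_of {a b c d x y : ℕ} {s : ℕ × ℕ}
    (h : BlackMove ((9 : ℕ) : ℕ∞) ((11 : ℕ) : ℕ∞) ⟨(a, b), (c, d), s⟩ (x, y)) :
    noMove a b c d x y = false := by
  obtain ⟨-, -, h1, h2, h3⟩ := h
  rw [noMove, Bool.or_eq_false_iff, Bool.or_eq_false_iff, Bool.or_eq_false_iff, beq_false_iff,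
    beq_false_iff]
  have h1 := (onBoard_iff _ _ _).1 h1
  refine ⟨⟨by have := h1.1; simp only at this; omega, by have := h1.2.1; simp only at this; omega⟩,
    ?_, ?_⟩
  · rw [← Bool.not_eq_true, nearB_iff]
    exact h2
  · rw [← Bool.not_eq_true, attB_iff]
    exact h3

theorem mateIn_of_tree {t : Tree} (ht : allT (chkT t) t = true) :
    ∀ (N n : ℕ), find n t ≠ 0 → find n t % 64 ≤ N →
      MateIn ((9 : ℕ) : ℕ∞) ((11 : ℕ) : ℕ∞) N (dec n) := by
  intro N
  induction N with
  | zero =>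
    intro n h1 h2
    have h3 := allT_find ht h1
    rw [chkT, Bool.and_eq_true, Bool.and_eq_true] at h3
    have := ble_iff.1 h3.1.1
    omega
  | succ N ih =>
    intro n h1 h2
    have h3 := allT_find ht h1
    obtain ⟨v, hv⟩ : ∃ v, v = find n t := ⟨_, rfl⟩
    rw [← hv] at h2 h3
    unfold chkT at h3
    obtain ⟨a, ha⟩ : ∃ a, a = n % 16 := ⟨_, rfl⟩
    obtain ⟨b, hb⟩ : ∃ b, b = n / 16 % 16 := ⟨_, rfl⟩
    obtain ⟨c, hc⟩ : ∃ c, c = n / 256 % 16 := ⟨_, rfl⟩
    obtain ⟨d, hd⟩ : ∃ d, d = n / 4096 % 16 := ⟨_, rfl⟩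
    obtain ⟨e, he⟩ : ∃ e, e = n / 65536 % 16 := ⟨_, rfl⟩
    obtain ⟨f, hf⟩ : ∃ f, f = n / 1048576 := ⟨_, rfl⟩
    obtain ⟨a', ha'⟩ : ∃ a', a' = v / 64 % 16 := ⟨_, rfl⟩
    obtain ⟨b', hb'⟩ : ∃ b', b' = v / 1024 % 16 := ⟨_, rfl⟩
    obtain ⟨c', hc'⟩ : ∃ c', c' = v / 16384 % 16 := ⟨_, rfl⟩
    obtain ⟨d', hd'⟩ : ∃ d', d' = v / 262144 := ⟨_, rfl⟩
    obtain ⟨w, hw⟩ : ∃ w, w = v % 64 := ⟨_, rfl⟩
    have hdec : dec n = ⟨(a, b), (c, d), (e, f)⟩ := by rw [dec, ha, hb, hc, hd, he, hf]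
    rw [← ha, ← hb, ← hc, ← hd, ← he, ← hf, ← ha', ← hb', ← hc', ← hd', ← hw] at h3
    rw [← hw] at h2
    have la' : a' < 16 := by omega
    have lb' : b' < 16 := by omega
    have lc' : c' < 16 := by omega
    rw [hdec]
    simp only [Bool.and_eq_true, ble_iff] at h3
    obtain ⟨⟨-, ⟨k1, k2⟩, k3, k4⟩, k5, k6, k7⟩ := h3
    rw [blkB, Bool.and_eq_true, Bool.and_eq_true, Bool.not_eq_true', Bool.or_eq_false_iff,
      beq_false_iff, beq_false_iff] at k7
    obtain ⟨⟨m1, m2⟩, m3, m4⟩ := k7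
    refine ⟨_, wmB_spec k5, ?_, ?_, ?_⟩
    · rw [exit_iff]
      rintro (g | g)
      · exact m1 g
      · exact m2 g
    · simp only [Bool.or_eq_true, Bool.not_eq_true'] at m3
      rcases m3 with m3 | m3 | m3 | m3 | m3 | m3 | m3 | m3 | m3
      · exact Or.inl (attB_iff.1 m3)
      all_goals
        right
        refine ⟨_, legal_of (by omega) (by omega) (by omega) (by omega) (by omega) (by omega)
          (by omega) m3⟩
    · rintro ⟨x, y⟩ hs
      have hno := noMove_of hs
      have hx := hs.2.1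
      have hne := hs.1
      have hon := (onBoard_iff _ _ _).1 hs.2.2.1
      simp only [Near] at hx
      simp only [ne_eq, Prod.mk.injEq, not_and] at hne
      simp only at hon
      have key : ∀ i j, i < 3 → j < 3 → x = e + i - 1 → y = f + j - 1 →
          repB t w a' b' c' d' e f i j = true →
          (x, y) ≠ (c', d') ∧ MateIn ((9 : ℕ) : ℕ∞) ((11 : ℕ) : ℕ∞) N
            ⟨(a', b'), (c', d'), (x, y)⟩ := by
        intro i j hi hj hxi hyj hrep
        rw [repB, ← hxi, ← hyj, hno, Bool.false_or] at hrep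
        simp only [Bool.and_eq_true, Bool.not_eq_true', Bool.and_eq_false_iff, beq_false_iff,
          ble_iff, blt_iff] at hrep
        refine ⟨fun g => ?_, ?_⟩
        · have g1 := congrArg Prod.fst g
          have g2 := congrArg Prod.snd g
          rcases hrep.1 with g3 | g3
          · exact g3 g1
          · exact g3 g2
        · have := ih (enc a' b' c' d' x y) (by
            intro g
            rw [g] at hrep
            simp at hrep) (by omega)
          rwa [dec_enc la' lb' lc' (by omega) (by omega)] at this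
      obtain ⟨i, hi, hi'⟩ : ∃ i, i < 3 ∧ x = e + i - 1 := ⟨x + 1 - e, by omega, by omega⟩
      obtain ⟨j, hj, hj'⟩ : ∃ j, j < 3 ∧ y = f + j - 1 := ⟨y + 1 - f, by omega, by omega⟩
      refine key i j hi hj hi' hj' ?_
      simp only [Bool.and_eq_true] at m4
      obtain ⟨p1, p2, p3, p4, p5, p6, p7, p8⟩ := m4
      interval_cases i <;> interval_cases j <;> first | assumption | (exfalso; omega)

end Pool.Agent.N293.KRK
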