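import Pool.Agent.N293.KRK.WinData

/-!
# Verification of the strategy of White, file 1
-/

set_option autoImplicit false

namespace Pool.Agent.N293.KRK

theorem ct4 : allT (chkT WT) T4 = true := by
  decide +kernel

theorem ct5 : allT (chkT WT) T5 = true := by
  decide +kernel

theorem ct6 : allT (chkT WT) T6 = true := by
  decide +kernel

theorem ct7 : allT (chkT WT) T7 = true := by
  decide +kernel

end Pool.Agent.N293.KRK
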