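import Pool.Agent.N293.KRK.WinData

/-!
# Verification of the strategy of White, file 3
-/

set_option autoImplicit false

namespace Pool.Agent.N293.KRK

theorem ct12 : allT (chkT WT) T12 = true := by
  decide +kernel

theorem ct13 : allT (chkT WT) T13 = true := by
  decide +kernel

theorem ct14 : allT (chkT WT) T14 = true := by
  decide +kernel

theorem ct15 : allT (chkT WT) T15 = true := by
  decide +kernel

end Pool.Agent.N293.KRK
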