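import Pool.Agent.N293.KRK.WinC0
import Pool.Agent.N293.KRK.WinC1
import Pool.Agent.N293.KRK.WinC2
import Pool.Agent.N293.KRK.WinC3

/-!
# White wins on the board with 9 files and 11 ranks
-/

set_option autoImplicit false

namespace Pool.Agent.N293.KRK

theorem and3 {l r : Tree} {k v : ℕ} (h1 : allT (chkT WT) l = true) (h2 : chkT WT k v = true)
    (h3 : allT (chkT WT) r = true) : allT (chkT WT) (.node l k v r) = true := by
  rw [allT, h1, h2, h3]
  rfl

theorem cn0 : chkT WT 4293204 2135237 = true := by
  decide +kernel

theorem cn1 : chkT WT 2270019 2674820 = true := by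
  decide +kernel

theorem cn2 : chkT WT 1336679 1137100 = true := by
  decide +kernel

theorem cn3 : chkT WT 1208643 1854658 = true := by
  decide +kernel

theorem cn4 : chkT WT 2184034 1349766 = true := by
  decide +kernel

theorem cn5 : chkT WT 3253090 2675911 = true := by
  decide +kernel

theorem cn6 : chkT WT 2455174 1940815 = true := by
  decide +kernel

theorem cn7 : chkT WT 3413588 890123 = true := by
  decide +kernel

theorem cn8 : chkT WT 6395027 2433165 = true := by
  decide +kernel

theorem cn9 : chkT WT 5338723 1153218 = true := by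
  decide +kernel

theorem cn10 : chkT WT 4416647 1645966 = true := by
  decide +kernel

theorem cn11 : chkT WT 5469301 1645901 = true := by
  decide +kernel

theorem cn12 : chkT WT 7517076 2941197 = true := by
  decide +kernel

theorem cn13 : chkT WT 6584199 1958291 = true := by
  decide +kernel

theorem cn14 : chkT WT 8565125 2908432 = true := by
  decide +kernel

theorem WT_ok : allT (chkT WT) WT = true :=
  (and3 (and3 (and3 (and3 ct0 cn3 ct1) cn2 (and3 ct2 cn4 ct3)) cn1 (and3 (and3 ct4 cn6 ct5) cn5 (and3 ct6 cn7 ct7))) cn0 (and3 (and3 (and3 ct8 cn10 ct9) cn9 (and3 ct10 cn11 ct11)) cn8 (and3 (and3 ct12 cn13 ct13) cn12 (and3 ct14 cn14 ct15))))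

theorem find_start : Nat.beq (find (enc 1 1 2 2 3 3) WT % 64) 39 = true := by
  decide +kernel

theorem mateIn_start : MateIn 9 11 39 start := by
  have h := Nat.eq_of_beq_eq_true find_start
  have := mateIn_of_tree WT_ok 39 (enc 1 1 2 2 3 3) (fun h' => by rw [h'] at h; simp at h) h.le
  rw [dec_enc (by norm_num) (by norm_num) (by norm_num) (by norm_num) (by norm_num)] at this
  exact_mod_cast this

end Pool.Agent.N293.KRK
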